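import Pool.Agent.Q259.NCSign.Crit

/-!
# MP_8f22fa_ag : five equivalent forms of the sign conjecture `C⁺` for one object

`C` is a `ℚ`-linear rigid symmetric monoidal category in which the endomorphisms of the unit object
are the rational numbers, with a symmetric monoidal additive functor to finite dimensional super
vector spaces over a field `K`.  This is so for the category `NChow(k)_ℚ` of noncommutative Chow
motives (the endomorphisms of the unit are `K₀(k)_ℚ = ℚ`), with periodic cyclic homology `HP`
(`K = k`, characteristic zero) or topological periodic cyclic homology `TP` with `p` inverted
(`K = W(k)[1/p]`).

For every object `M` (for instance the motive of a smooth proper dg category) we prove that the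
following are equivalent.

1. `C⁺(M)`: the even projector `π₊` is the image of an endomorphism of `M` with rational
   coefficients;
2. `π₊` is a `K`-linear combination of operators given by endomorphisms of `M`;
3. for every single pair of an even vector `x` and an odd vector `y` there is a `K`-linear
   combination `P`, which may depend on `x` and `y`, of operators given by endomorphisms of `M` with
   `P x = x` and `P y = 0`;
4. every subspace of the realisation stable under the endomorphisms of `M` is the sum of its even
   and its odd part;
5. there is an endomorphism `z` of `M` such that the traces of all its powers `z, z², z³, …`
   (rational numbers, computed in the rigid category, that is, intersection numbers) are equal to the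
   dimension of the even part.

The condition 5 depends only on `M` modulo numerical equivalence.

Proof.  1 ⇒ 2 ⇒ 4 ⇒ 3 ⇒ 2 is linear algebra.  2 ⇒ 1 is the descent of a central idempotent along a
rational trace form (starting library, `Pool.Agent.TH133.PW.central_idem_mem`).  5 ⇒ 1: for
`T = H(z)` and every polynomial `P` without constant term the supertrace of `P(T)` is `P(1)` times
the dimension of the even part; taking for `P(T)` the projectors to the generalised eigenspaces one
sees that `T` is unipotent on the even part and nilpotent on the odd part, and then
`π₊ = 1 - (1 - T^N)^N`.
-/

set_option autoImplicit false

open CategoryTheory Limits MonoidalCategory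

namespace Pool.Agent.Results.MP_8f22fa_ag.Criteria

open Pool.Agent.Y112.SR Pool.Agent.Q259.NCSign

universe v u w

/-- The five forms of the conjecture `C⁺` for the object `M`: `R.CPlus M` (the projector to the even
part comes from an endomorphism of `M`), `InSpan` (it is in the `K`-span of the endomorphisms of
`M`), `Separates` (single even and odd vectors are separated), `StableGraded` (stable subspaces are
graded), `TracePowers` (there is an endomorphism all of whose powers have as trace the dimension of
the even part). -/
theorem result {C : Type u} [Category.{v} C] [Preadditive C] [Linear ℚ C] [MonoidalCategory C]
    [SymmetricCategory C] [RightRigidCategory C] {K : Type w} [Field K]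
    (R : SuperRealisation C K) (hunit : ∀ c : 𝟙_ C ⟶ 𝟙_ C, ∃ q : ℚ, c = q • 𝟙 (𝟙_ C)) (M : C) :
    [R.CPlus M, InSpan R M, Separates R M, StableGraded R M, TracePowers R M].TFAE :=
  cplus_tfae R hunit M

end Pool.Agent.Results.MP_8f22fa_ag.Criteria
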