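import Pool.Agent.Q68.OV.Finite

/-!
# The conjecture C⁺_nc for one geometric dg category and finitely many cubics `T(x, y, z) = 1`

Let `F` be a perfect field, `k` an algebraic extension of `F` (for instance `k = F`, or the algebraic
closure), `S` a smooth projective scheme over `F`, and `𝒜` **one** smooth proper dg category over `k` such
that `U(𝒜)_ℚ` is a direct factor of `U(perf_dg(S_k))_ℚ` in `NChow(k)_ℚ`, for instance an admissible
subcategory of `perf_dg(S_k)`: there are morphisms `ι : U(𝒜) → U(perf(S_k))` and `ρ` back with
`ρ ∘ ι = 1`. The conjecture `C⁺_nc(𝒜)` says that the even Künneth projector `π_+` of `V = HP_±(𝒜)`, or of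
`V = TP_±(𝒜)_{1/p}`, is algebraic.

For a smooth projective scheme `Y` over `F` let `A(Y)` be the image of `K_0(𝒜^op ⊗ perf_dg(Y_k))_ℚ` in the
space `Hom(V, V_Y)`, where `V_Y` is the realisation of `perf_dg(Y_k)` (that is, the morphisms from
`U(𝒜)_ℚ` to `U(perf_dg(Y_k))_ℚ`, modulo homological equivalence), and
`B(Y) = A(Y) + A(Y) ∘ π_+`. Both are additive functors of the Chow motive of `Y_k` which do not see Tate
twists, and `A ⊆ B`; they are equal if and only if `α ∘ π_+` is algebraic for all algebraic `α`
(`EvenStable`). For a separated scheme `X` of finite type over `F` let `W(X)` be the weight complex of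
`X_k` (Gillet, Soulé, Bondarko; a complex of Chow motives over `k` with rational coefficients, for the
cohomology with compact supports; `W(X) = h(X_k)` for smooth projective `X`), and put
`A^i(X) = H^i(A(W(X)))`, `B^i(X) = H^i(B(W(X)))`. `BijAll C X` says that the maps `A^i(X) → B^i(X)` are
isomorphisms for all `i`.

**Theorem.** Let the dimension of `S` be at most `n`. There is a finite list `L` of trilinear forms over
`F` which depends only on `S` and `n` (not on `k`, on the realisation or on the dg category `𝒜`), with the
following properties. Each form in `L` has at least five variables in each of its three blocks, and at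
most `n + 2` variables in one of them.

(1) The conjecture `C⁺_nc(𝒜)` is true if and only if the maps `A^i(X) → B^i(X)` are isomorphisms for the
finitely many smooth affine cubic hypersurfaces `X : T(x, y, z) = 1`, `T` in `L`.

(2) It is true if and only if they are isomorphisms for all trilinear forms `T` over `F` with a block of at
most `n + 2` variables, and also if and only if they are isomorphisms for all `T`.

(3) They are isomorphisms for all forms with a block of at most **four** variables, and for all forms if
`F` is finite. In particular the case `n = 3` is decided by forms with a block of exactly five variables.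

Proof. For `α : U(𝒜) → U(perf(Y_k))` the class `α ∘ π_+` is equal to `π_+ ∘ α` with the projector `π_+` of
`Y_k`, which is algebraic if `Y` has dimension at most two. The schemes for which the maps are isomorphisms
have the closure properties of the universality theorem for trilinear forms (the starting engine
`Y116.UV`, `Z125.UN`, `Q193.LT`), and these are finitary (`Q68.OV.Finite`).
-/

set_option autoImplicit false

open CategoryTheory CategoryTheory.Limits AlgebraicGeometry Pool.Agent.Y116.UV Pool.Agent.Z125.UN
  Pool.Agent.Q193.LT Pool.Agent.Q68.OV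

universe w

namespace Pool.Agent.Results.MP_8f22fa_ag.FinitelyManyCubics

/-- A smooth proper dg category `𝒜` over `k` whose noncommutative motive is a direct factor of that of
`S_k`, and the schemes `Y_k`, for schemes `Y` over `F`; `V` is the realisation of `𝒜`. -/
structure NCData (F : Type) [Field F] (S : Sch F) where
  /-- the linear maps from `V` to the realisation of `perf_dg(Y_k)` -/
  E : Sch F → ModuleCat.{w} ℚ
  /-- the realisations of the morphisms from `U(𝒜)_ℚ` to `U(perf_dg(Y_k))_ℚ` -/
  alg : ∀ Y : Sch F, Submodule ℚ (E Y)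
  /-- the linear endomorphisms of `V` -/
  M : ModuleCat.{w} ℚ
  /-- the realisations of the endomorphisms of `U(𝒜)_ℚ` -/
  algM : Submodule ℚ M
  /-- the composition `α ∘ β` -/
  comp : ∀ Y, E Y →ₗ[ℚ] M →ₗ[ℚ] E Y
  /-- the realisation of the inclusion `ι` of `U(𝒜)_ℚ` in `U(perf_dg(S_k))_ℚ` -/
  incl : E S
  /-- the composition `β ↦ ρ ∘ β` with the projection `ρ` -/
  retr : E S →ₗ[ℚ] M
  /-- the even Künneth projector of `V` -/
  even : M

variable {F : Type} [Field F] {S : Sch F}

/-- Algebraic classes are closed under compositions, `ι` and `ρ` are algebraic, and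
`ρ ∘ (ι ∘ π_+) = π_+`. -/
structure IsNC (D : NCData.{w} F S) : Prop where
  incl_mem : D.incl ∈ D.alg S
  comp_mem : ∀ Y, SmoothProj Y → ∀ α ∈ D.alg Y, ∀ β ∈ D.algM, D.comp Y α β ∈ D.alg Y
  retr_mem : ∀ α ∈ D.alg S, D.retr α ∈ D.algM
  retr_comp : D.retr (D.comp S D.incl D.even) = D.even

/-- The conjecture `C⁺_nc(𝒜)`: some endomorphism of `U(𝒜)_ℚ` realises the even Künneth projector. -/
def CPlusNC (D : NCData.{w} F S) : Prop := D.even ∈ D.algM

/-- `α ∘ π_+` is algebraic for all morphisms `α` from `U(𝒜)` to `U(perf_dg(Y_k))`. -/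
def EvenStable (D : NCData.{w} F S) (Y : Sch F) : Prop :=
  ∀ α ∈ D.alg Y, D.comp Y α D.even ∈ D.alg Y

/-- The standard properties of `A^i`, `B^i` and of the maps between them: long exact sequences
`⋯ → A^i(U) → A^i(X) → A^i(Z) → A^{i+1}(U) → ⋯`, `A^i(E) = A^i(U)` for affine bundles, and `A^i(X)` is a
direct factor of `A^{i+1}(X × 𝔾_m)`. -/
def IsWeightNC (C : PairData.{w} F ℤ ℚ) : Prop :=
  IsPair C (Equiv.addRight 1) (Equiv.refl ℤ) (Equiv.addRight 1)

/-- The maps are isomorphisms for all hypersurfaces `T = 1` with a block of at most `m` variables. -/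
def BlockForms (C : PairData.{w} F ℤ ℚ) (m : ℕ) : Prop :=
  ∀ t : Form F, t.Block m → BijAll C t.hyp

/-- **The conjecture C⁺_nc for one geometric dg category and finitely many cubics.** See the explanations
above. `surfaces` and `finite` are known cases. -/
theorem result {F : Type} [Field F] [PerfectField F] {S : Sch F} (hS : SmoothProj S) {n : ℕ}
    (hn : topologicalKrullDim S.left ≤ n) :
    ∃ L : List (Form F), (∀ t ∈ L, t.Block (n + 2) ∧ ¬ t.Block 4) ∧
      ∀ (D : NCData.{w} F S) (C : PairData.{w} F ℤ ℚ), IsNC D → IsWeightNC C → WeightGen C →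
        (∀ Y, SmoothProj Y → (BijAll C Y ↔ EvenStable D Y)) →
        (surfaces : ∀ Y : Sch F, SmoothProj Y → topologicalKrullDim Y.left ≤ 2 → BijAll C Y) →
        (finite : Finite F → CPlusNC D) →
        (CPlusNC D ↔ ∀ t ∈ L, BijAll C t.hyp) ∧
        (CPlusNC D ↔ BlockForms C (n + 2)) ∧
        (CPlusNC D ↔ ∀ t : Form F, BijAll C t.hyp) ∧
        BlockForms C 4 ∧ (Finite F → ∀ t : Form F, BijAll C t.hyp) := by
  classical
  obtain ⟨L, hL, hLS⟩ := reached S hS.ft hn
  refine ⟨L.filter (fun t => ¬ t.Block 4), fun t ht => ?_, ?_⟩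
  · rw [List.mem_filter] at ht
    exact ⟨hL t ht.1, by simpa using ht.2⟩
  intro D C hD hC hg bij surfaces finite
  have point : BijAll C (aff F F) := by
    refine hg 2 (fun Y hY hd => surfaces Y hY (by exact_mod_cast hd)) (aff F F) (ft_aff True) ?_
    rw [topDim_aff, ringKrullDim_eq_zero_of_field]
    exact_mod_cast Nat.zero_le 2
  have hsur : BlockForms C 4 := fun t ht =>
    (wg_dim hg hC point 2).mp (fun Y hY hd => surfaces Y hY (by exact_mod_cast hd))
      t.a t.b t.c t.T ht
  have hback : BijAll C S → CPlusNC D := by
    intro h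
    have h1 := hD.retr_mem _ ((bij S hS).mp h D.incl hD.incl_mem)
    rwa [hD.retr_comp] at h1
  have hall : CPlusNC D → ∀ t : Form F, BijAll C t.hyp := fun h t =>
    (wg_all hg hC point).mp (fun Y hY => (bij Y hY).mpr fun α hα => hD.comp_mem Y hY α hα _ h)
      t.a t.b t.c t.T
  have hlist : (∀ t ∈ L, t.Block (n + 2) → ¬ t.Block 4 → BijAll C t.hyp) → CPlusNC D := by
    intro h
    refine hback (hLS _ (bnd_pair hC point) fun t ht => ?_)
    by_cases h4 : t.Block 4
    · exact hsur t h4
    · exact h t ht (hL t ht) h4
  refine ⟨⟨fun h t _ => hall h t, fun h => hlist fun t ht _ h4 => ?_⟩,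
    ⟨fun h t _ => hall h t, fun h => hlist fun t _ h5 _ => h t h5⟩,
    ⟨hall, fun h => hlist fun t _ _ _ => h t⟩, hsur, fun h => hall (finite h)⟩
  exact h t (List.mem_filter.mpr ⟨ht, by simpa using h4⟩)

end Pool.Agent.Results.MP_8f22fa_ag.FinitelyManyCubics
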