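import Pool.Agent.Q154.NS.Many

/-!
# MP_8f22fa_ag : many numerical endomorphisms imply the conjecture

`C` is a `ℚ`-linear rigid symmetric monoidal category with `End(1) = ℚ` and `R` a symmetric monoidal
additive functor to finite dimensional super vector spaces over a field `K`, for example the
category of noncommutative Chow motives with rational coefficients and `TP[1/p]`. Let `m` and `n` be
the dimensions of the even and of the odd part of `R(M)`. It is proved that the even projector of
`R(M)` is algebraic if the endomorphism algebra of the numerical motive of `M` has a dimension
greater than `(m - 1)² + (n - 1)²` over `ℚ` (differences of natural numbers, so that `0 - 1 = 0`).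

Proof. Let `B` be the algebra of the combinations of algebraic operators. If the even projector is
not in `B`, then there are an even vector `x` and an odd vector `y` such that `x` is not in
`N = B (x + y)`. Then `N` identifies a subquotient of the even part with one of the odd part, of
dimension at least one. These cancel in the supertrace of the elements of `B`, and so the trace form
of `B` only depends on the operators on the remaining subquotients, whose spaces have the dimension
at most `(m - 1)² + (n - 1)²`. On the other hand its rank is the dimension of the numerical
endomorphism algebra.
-/

set_option autoImplicit false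

open CategoryTheory Limits MonoidalCategory

namespace Pool.Agent.Results.MP_8f22fa_ag.ManyEndomorphisms

open Pool.Agent.Y112.SR Pool.Agent.Q154.NS

universe v u w

/-- The endomorphisms `f k` of `M` are linearly independent over `ℚ` modulo numerically trivial
endomorphisms. -/
def NumIndep {C : Type u} [Category.{v} C] [Preadditive C] [Linear ℚ C] [MonoidalCategory C]
    [SymmetricCategory C] [RightRigidCategory C] {M : C} {n : ℕ} (f : Fin n → (M ⟶ M)) : Prop :=
  ∀ a : Fin n → ℚ, NumTrivial (∑ k, a k • f k) → a = 0

/-- If `M` has more than `(dim R(M)⁺ - 1)² + (dim R(M)⁻ - 1)²` endomorphisms which are linearly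
independent modulo numerical equivalence, then the even projector of `R(M)` is algebraic. -/
theorem result {C : Type u} [Category.{v} C] [Preadditive C] [Linear ℚ C] [MonoidalCategory C]
    [SymmetricCategory C] [RightRigidCategory C]
    (hunit : ∀ c : 𝟙_ C ⟶ 𝟙_ C, ∃ q : ℚ, c = q • 𝟙 _)
    {K : Type w} [Field K] (R : SuperRealisation C K) (M : C) {n : ℕ} (f : Fin n → (M ⟶ M))
    (hf : NumIndep f) (h : (evd R M - 1) ^ 2 + (odd R M - 1) ^ 2 < n) : R.CPlus M := by
  by_contra hnot
  exact absurd (many_main R hunit hnot f hf) (not_le.2 h)

end Pool.Agent.Results.MP_8f22fa_ag.ManyEndomorphisms
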