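import Pool.Agent.Q69.KN.NC

/-!
# MP_8f22fa_ag : an inequality of traces and the sign conjecture `C⁺`

`C` is a `ℚ`-linear rigid symmetric monoidal category in which the endomorphisms of the unit object
are the rational numbers, with a symmetric monoidal additive functor `R` to finite dimensional super
vector spaces over a field `K`. This is so for the category `NChow(k)_ℚ` of noncommutative Chow
motives, with periodic cyclic homology `HP` (`K = k`, characteristic zero) or topological periodic
cyclic homology `TP` with `p` inverted (`K = W(k)[1/p]`).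

Let `z` be an endomorphism of the object `M` such that for all `k ≥ 0` the trace of `z^(k+1)` in the
rigid category (a rational number, an intersection number) is the trace of `z^k` on the even part of
the realisation of `M` (`PowRep`). This is so if `z` is a numerical representative of the even
projector: for all endomorphisms `y` of `M` the trace of `z y` is the trace of `y` on the even part
(`FullRep`). Then

1. `tr(z^2) ≤ tr(z^3)`, and if they are equal then `C⁺(M)` holds;
2. if `z` is a numerical representative then they are equal if and only if `C⁺(M)` holds;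
3. `C⁺(M)` holds if and only if there is a `z` with the property on the powers and
   `tr(z^2) = tr(z^3)`, if and only if there is a numerical representative `z` with this equality.

Proof. If the eigenvalue `c` of the operator `T` of `z` has the multiplicities `m` on the even part
and `l` on the odd part then `c (m - l) = m`, so `c` is a rational number and
`m c (c - 1) = m^2 l / (m - l)^2 ≥ 0`. The sum of these numbers is `tr(z^3) - tr(z^2)`. If it is zero
then `T` is unipotent on the even part and nilpotent on the odd part, and `C⁺(M)` follows from the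
criterion of helper259 (`MP_8f22fa_ag.Criteria`).
-/

set_option autoImplicit false

open CategoryTheory Limits MonoidalCategory

namespace Pool.Agent.Results.MP_8f22fa_ag.TraceInequality

open Pool.Agent.Y112.SR Pool.Agent.Q259.NCSign Pool.Agent.Q69.KN

universe v u w

/-- `tr(z^2) ≤ tr(z^3)` for all numerical representatives `z` of the even projector, with equality if
and only if the even projector is algebraic. -/
theorem result {C : Type u} [Category.{v} C] [Preadditive C] [Linear ℚ C] [MonoidalCategory C]
    [SymmetricCategory C] [RightRigidCategory C] {K : Type w} [Field K]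
    (R : SuperRealisation C K) (hunit : ∀ c : 𝟙_ C ⟶ 𝟙_ C, ∃ q : ℚ, c = q • 𝟙 (𝟙_ C)) (M : C) :
    (∀ (z : End M) (a b : ℚ), ctr (z ^ 2 : End M) = a • 𝟙 _ → ctr (z ^ 3 : End M) = b • 𝟙 _ →
      (PowRep R M z → a ≤ b ∧ (a = b → R.CPlus M)) ∧
        (FullRep R M z → PowRep R M z ∧ (a = b ↔ R.CPlus M))) ∧
      (R.CPlus M ↔ ∃ z : End M, PowRep R M z ∧ ctr (z ^ 2 : End M) = ctr (z ^ 3 : End M)) ∧
      (R.CPlus M ↔ ∃ z : End M, FullRep R M z ∧ ctr (z ^ 2 : End M) = ctr (z ^ 3 : End M)) := by
  have h1 : ∀ z : End M, PowRep R M z → ctr (z ^ 2 : End M) = ctr (z ^ 3 : End M) →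
      R.CPlus M := by
    intro z hz hz'
    obtain ⟨a, ha⟩ := hunit (ctr (z ^ 2 : End M))
    exact (ineq hunit hz ha (by rw [← hz', ha])).2 rfl
  have h2 : R.CPlus M → ∃ z : End M, FullRep R M z ∧
      ctr (z ^ 2 : End M) = ctr (z ^ 3 : End M) := by
    intro hC
    obtain ⟨z, hz⟩ := exists_rep_of_cplus hC
    obtain ⟨a, ha⟩ := hunit (ctr (z ^ 2 : End M))
    obtain ⟨b, hb⟩ := hunit (ctr (z ^ 3 : End M))
    exact ⟨z, hz, by rw [ha, hb, eq_of_cplus hunit hz ha hb hC]⟩
  refine ⟨fun z a b ha hb => ⟨fun hz => ineq hunit hz ha hb, fun hz =>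
    ⟨powRep_of_fullRep hz, (ineq hunit (powRep_of_fullRep hz) ha hb).2,
      eq_of_cplus hunit hz ha hb⟩⟩, ⟨fun hC => ?_, ?_⟩, ⟨h2, ?_⟩⟩
  · obtain ⟨z, hz, h⟩ := h2 hC
    exact ⟨z, powRep_of_fullRep hz, h⟩
  · rintro ⟨z, hz, h⟩
    exact h1 z hz h
  · rintro ⟨z, hz, h⟩
    exact h1 z (powRep_of_fullRep hz) h

end Pool.Agent.Results.MP_8f22fa_ag.TraceInequality
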